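import Pool.Agent.Y861.TE.Struct

/-!
# A uniform nilpotency bound for anticommutative 3-Engel algebras over commutative rings
-/

set_option autoImplicit false

namespace Pool.Agent.Y861.TE

open Pool.Agent.H461R3.E3 (Anticommutative ThreeEngel IsProd isProd_pos)

universe u v

/-- An algebra with `r` elements which have a nonzero product of `n ≥ N` factors. -/
structure Bad (r N : ℕ) where
  R : Type u
  [iR : CommRing R]
  A : Type v
  [iA : NonUnitalNonAssocRing A]
  [iM : Module R A]
  [iS : IsScalarTower R A A]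
  [iC : SMulCommClass R A A]
  t2 : ∀ x : A, x + x = 0 → x = 0
  t3 : ∀ x : A, x + x + x = 0 → x = 0
  h0 : Anticommutative A
  h1 : ThreeEngel A
  a : Fin r → A
  n : ℕ
  hn : N ≤ n
  x : A
  hx : IsProd (Set.range a) n x
  hx0 : x ≠ 0

attribute [instance] Bad.iR Bad.iA Bad.iM Bad.iS Bad.iC

theorem isProd_mono {A : Type v} [NonUnitalNonAssocRing A] {S T : Set A} (h : S ⊆ T) {n : ℕ}
    {x : A} (hx : IsProd S n x) : IsProd T n x := by
  induction hx with
  | base hx => exact IsProd.base (h hx)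
  | mul _ _ h1 h2 => exact IsProd.mul h1 h2

theorem isProd_lift {I : Type} {A : I → Type v} [∀ i, NonUnitalNonAssocRing (A i)] {r : ℕ}
    (a : ∀ i, Fin r → A i) (j : I) {n : ℕ} {x : A j} (hx : IsProd (Set.range (a j)) n x) :
    ∃ y : ∀ i, A i, IsProd (Set.range fun k i => a i k) n y ∧ y j = x := by
  induction hx with
  | base hx =>
    obtain ⟨k, rfl⟩ := hx
    exact ⟨fun i => a i k, IsProd.base ⟨k, rfl⟩, rfl⟩
  | mul _ _ h1 h2 =>
    obtain ⟨y, hy, rfl⟩ := h1
    obtain ⟨z, hz, rfl⟩ := h2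
    exact ⟨y * z, IsProd.mul hy hz, rfl⟩

theorem no_bad (r : ℕ) (B : ∀ N, Bad.{u, v} r N) : False := by
  let RR := ∀ N, (B N).R
  let AA := ∀ N, (B N).A
  haveI hS : IsScalarTower RR AA AA :=
    ⟨fun c x y => funext fun N => smul_mul_assoc (c N) (x N) (y N)⟩
  haveI hC : SMulCommClass RR AA AA :=
    ⟨fun c x y => funext fun N => (mul_smul_comm (c N) (x N) (y N)).symm⟩
  have t2 : ∀ x : AA, x + x = 0 → x = 0 := fun x hx =>
    funext fun N => (B N).t2 (x N) (congrFun hx N)
  have t3 : ∀ x : AA, x + x + x = 0 → x = 0 := fun x hx =>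
    funext fun N => (B N).t3 (x N) (congrFun hx N)
  have h0 : Anticommutative AA := fun x => funext fun N => (B N).h0 (x N)
  have h1 : ThreeEngel AA := fun x y => funext fun N => (B N).h1 (x N) (y N)
  obtain ⟨N, hN1, hN⟩ := loc_nilp (F := RR) (A := AA) t2 t3 h0 h1
    (S := Set.range fun k N => (B N).a k) (Set.finite_range _)
  obtain ⟨y, hy, e⟩ := isProd_lift (fun N => (B N).a) N (B N).hx
  have h2 := hN _ (B N).hn y (isProd_mono (NonUnitalAlgebra.subset_adjoin RR) hy)
  exact (B N).hx0 (by rw [← e, h2]; rfl)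

/-- The uniform bound for products of generators. -/
theorem uniform (r : ℕ) : ∃ N, 1 ≤ N ∧ ∀ (R : Type u) [CommRing R] (A : Type v)
    [NonUnitalNonAssocRing A] [Module R A] [IsScalarTower R A A] [SMulCommClass R A A],
    (∀ x : A, x + x = 0 → x = 0) → (∀ x : A, x + x + x = 0 → x = 0) → Anticommutative A → ThreeEngel A → ∀ (a : Fin r → A) (n : ℕ), N ≤ n →
    ∀ x : A, IsProd (Set.range a) n x → x = 0 := by
  by_contra hcon
  push Not at hcon
  have key : ∀ N, Nonempty (Bad.{u, v} r N) := by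
    intro N
    obtain ⟨R, iR, A, iA, iM, iS, iC, t2, t3, h0, h1, a, n, hn, x, hx, hx0⟩ :=
      hcon (N + 1) (by omega)
    exact ⟨{ R := R, A := A, t2 := t2, t3 := t3, h0 := h0, h1 := h1, a := a, n := n, hn := by omega,
             x := x, hx := hx, hx0 := hx0 }⟩
  exact no_bad r fun N => (key N).some

section
variable {R : Type u} [CommRing R] {A : Type v} [NonUnitalNonAssocRing A] [Module R A]
variable [IsScalarTower R A A] [SMulCommClass R A A]

theorem isProd_span' {S : Set A} {n : ℕ} {x : A}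
    (hx : IsProd (NonUnitalAlgebra.adjoin R S : Set A) n x) :
    x ∈ Submodule.span R {y : A | ∃ k, n ≤ k ∧ IsProd S k y} := by
  induction hx with
  | @base x h1 =>
    refine Submodule.span_mono ?_ (adjoin_span h1)
    rintro y ⟨k, hk⟩
    exact ⟨k, isProd_pos hk, hk⟩
  | @mul m n x y _ _ h1 h2 =>
    refine Submodule.span_induction
      (p := fun x _ => x * y ∈ Submodule.span R {y : A | ∃ k, m + n ≤ k ∧ IsProd S k y})
      ?_ ?_ ?_ ?_ h1
    · rintro x ⟨k, hmk, hk⟩
      refine Submodule.span_induction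
        (p := fun y _ => x * y ∈ Submodule.span R {y : A | ∃ k, m + n ≤ k ∧ IsProd S k y})
        ?_ ?_ ?_ ?_ h2
      · rintro y ⟨l, hnl, hl⟩
        exact Submodule.subset_span ⟨k + l, by omega, IsProd.mul hk hl⟩
      · rw [mul_zero]; exact Submodule.zero_mem _
      · intro y z _ _ h1 h2
        rw [mul_add]; exact Submodule.add_mem _ h1 h2
      · intro c y _ h1
        rw [mul_smul_comm]; exact Submodule.smul_mem _ c h1
    · rw [zero_mul]; exact Submodule.zero_mem _
    · intro y z _ _ h1 h2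
      rw [add_mul]; exact Submodule.add_mem _ h1 h2
    · intro c y _ h1
      rw [smul_mul_assoc]; exact Submodule.smul_mem _ c h1

theorem alg_of {r N : ℕ} (S : Finset A) (hr : S.card = r)
    (h : ∀ (a : Fin r → A) (n : ℕ), N ≤ n → ∀ x : A, IsProd (Set.range a) n x → x = 0) (x : A)
    (hx : IsProd (NonUnitalAlgebra.adjoin R (S : Set A) : Set A) N x) : x = 0 := by
  subst hr
  have h1 := isProd_span' hx
  have h2 : {y : A | ∃ k, N ≤ k ∧ IsProd (S : Set A) k y} ⊆ ((⊥ : Submodule R A) : Set A) := by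
    rintro y ⟨k, hk, hy⟩
    have h3 : Set.range (fun i : Fin S.card => ((S.equivFin.symm i : S) : A)) = (S : Set A) := by
      ext z
      constructor
      · rintro ⟨i, rfl⟩
        exact (S.equivFin.symm i).2
      · intro hz
        exact ⟨S.equivFin ⟨z, hz⟩, by simp⟩
    rw [← h3] at hy
    have := h _ k hk y hy
    simpa using this
  have h3 := (Submodule.span_le.2 h2) h1
  simpa using h3

end

/-- The uniform bound. -/
theorem main : ∃ f : ℕ → ℕ, (∀ r, 1 ≤ f r) ∧ ∀ (R : Type u) [CommRing R] (A : Type v)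
    [NonUnitalNonAssocRing A] [Module R A] [IsScalarTower R A A] [SMulCommClass R A A],
    (∀ x : A, x + x = 0 → x = 0) → (∀ x : A, x + x + x = 0 → x = 0) → Anticommutative A → ThreeEngel A → ∀ (S : Finset A) (x : A),
    IsProd (NonUnitalAlgebra.adjoin R (S : Set A) : Set A) (f S.card) x → x = 0 := by
  choose f hf1 hf using uniform.{u, v}
  refine ⟨f, hf1, ?_⟩
  intro R _ A _ _ _ _ t2 t3 h0 h1 S x hx
  exact alg_of S rfl (fun a n hn x hx => hf S.card R A t2 t3 h0 h1 a n hn x hx) x hx

end Pool.Agent.Y861.TE
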