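import Pool.Agent.Y861.TE.Main
import Pool.Agent.Results.MP_1664c7_al.CharThree

/-!
# Coefficient rings in which three is not invertible
-/

set_option autoImplicit false

namespace Pool.Agent.Y861.TE

open Pool.Agent.H461R3.E3 (Anticommutative ThreeEngel IsProd isProd_pos)

universe u v

/-- Every finitely generated subalgebra is nilpotent. -/
def LocNil (R : Type u) [CommRing R] (A : Type v) [NonUnitalNonAssocRing A] [Module R A]
    [IsScalarTower R A A] [SMulCommClass R A A] : Prop :=
  ∀ S : Finset A, ∃ N, 1 ≤ N ∧ ∀ x : A,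
    IsProd (NonUnitalAlgebra.adjoin R (S : Set A) : Set A) N x → x = 0

theorem conv {A : Type v} [NonUnitalNonAssocRing A] {S T : Set A} (h : S ⊆ T) {n : ℕ} {x : A}
    (hx : Pool.Agent.Results.MP_1664c7_al.CharThree.IsProd S n x) : IsProd T n x := by
  induction hx with
  | base hx => exact IsProd.base (h hx)
  | mul _ _ h1 h2 => exact IsProd.mul h1 h2

theorem three (R : Type u) [CommRing R] (h3 : ¬ IsUnit (3 : R)) :
    ∃ (A : Type u) (_ : NonUnitalNonAssocRing A) (_ : Module R A) (_ : IsScalarTower R A A)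
      (_ : SMulCommClass R A A), Anticommutative A ∧ ThreeEngel A ∧ ¬ LocNil R A := by
  obtain ⟨m, hm, h3m⟩ := exists_max_ideal_of_mem_nonunits (a := (3 : R)) h3
  letI : Field (R ⧸ m) := Ideal.Quotient.field m
  have h3K : (3 : R ⧸ m) = 0 := by
    have h := Ideal.Quotient.eq_zero_iff_mem.2 h3m
    rw [map_ofNat] at h
    exact h
  haveI : CharP (R ⧸ m) 3 := by
    have h1 : ringChar (R ⧸ m) ∣ 3 := ringChar.dvd (by exact_mod_cast h3K)
    rcases (Nat.dvd_prime Nat.prime_three).1 h1 with h | h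
    · exact absurd h CharP.ringChar_ne_one
    · rw [← h]
      exact ringChar.charP _
  obtain ⟨A, i1, i2, i3, i4, h0, h1, ⟨a, b, hab⟩, -⟩ :=
    Pool.Agent.Results.MP_1664c7_al.CharThree.result (R ⧸ m)
  letI iM : Module R A := Module.compHom A (Ideal.Quotient.mk m)
  haveI iS : IsScalarTower R A A :=
    ⟨fun c x y => smul_mul_assoc (Ideal.Quotient.mk m c) x y⟩
  haveI iC : SMulCommClass R A A :=
    ⟨fun c x y => (mul_smul_comm (Ideal.Quotient.mk m c) x y).symm⟩
  refine ⟨A, i1, iM, iS, iC, h0, h1, ?_⟩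
  intro hloc
  classical
  obtain ⟨N, hN1, hN⟩ := hloc {a, b}
  apply hab
  refine ⟨N, hN1, fun x hx => hN x (conv ?_ hx)⟩
  intro y hy
  have e : (({a, b} : Finset A) : Set A) = {a, b} := by simp
  rw [e]
  let T : NonUnitalSubalgebra (R ⧸ m) A :=
    { carrier := (NonUnitalAlgebra.adjoin R ({a, b} : Set A) : Set A)
      add_mem' := fun h1 h2 => (NonUnitalAlgebra.adjoin R ({a, b} : Set A)).add_mem h1 h2
      zero_mem' := (NonUnitalAlgebra.adjoin R ({a, b} : Set A)).zero_mem
      mul_mem' := fun h1 h2 => (NonUnitalAlgebra.adjoin R ({a, b} : Set A)).mul_mem h1 h2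
      smul_mem' := by
        intro c x hx
        obtain ⟨r, rfl⟩ := Ideal.Quotient.mk_surjective c
        exact (NonUnitalAlgebra.adjoin R ({a, b} : Set A)).smul_mem r hx }
  have hle : NonUnitalAlgebra.adjoin (R ⧸ m) {a, b} ≤ T :=
    NonUnitalAlgebra.adjoin_le (fun z hz => NonUnitalAlgebra.subset_adjoin R hz)
  exact hle hy

end Pool.Agent.Y861.TE
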